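import Mathlib

open Filter Topology

namespace Pool.Agent.Results.MP_514f39_an.NoPermutationBasis

section Defs
variable (𝕜 : Type*) [RCLike 𝕜] {E : Type*} [NormedAddCommGroup E] [NormedSpace 𝕜 E]

/-- `x` is a (Schauder) basis: every vector has exactly one scalar sequence of coefficients whose
series against `x` converges in norm to it. -/
def IsSchauderBasis (x : ℕ → E) : Prop :=
  ∀ v : E, ∃! α : ℕ → 𝕜, Tendsto (fun m => ∑ i ∈ Finset.range m, α i • x i) atTop (𝓝 v)

/-- No member of the sequence lies in the closed linear span of the others. -/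
def IsMinimalSeq (x : ℕ → E) : Prop :=
  ∀ m : ℕ, x m ∉ (Submodule.span 𝕜 {y | ∃ n, n ≠ m ∧ x n = y}).topologicalClosure

/-- `v = ∑ α_{σ(i)} x_{σ(i)}` with norm convergence of the partial sums. -/
def PermExpansion (x : ℕ → E) (v : E) (α : ℕ → 𝕜) (σ : Equiv.Perm ℕ) : Prop :=
  Tendsto (fun m => ∑ i ∈ Finset.range m, α (σ i) • x (σ i)) atTop (𝓝 v)

/-- Property (U). -/
def PropertyU (x : ℕ → E) : Prop :=
  ∀ v : E, (∃ (α : ℕ → 𝕜) (σ : Equiv.Perm ℕ), PermExpansion 𝕜 x v α σ) ∧
    ∀ (α β : ℕ → 𝕜) (σ π : Equiv.Perm ℕ),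
      PermExpansion 𝕜 x v α σ → PermExpansion 𝕜 x v β π → β = α

end Defs

/-! ### A greedy ordering lemma -/

theorem greedy {𝕜 : Type*} [RCLike 𝕜] {ι : Type*} [DecidableEq ι] (a : ι → 𝕜) :
    ∀ (k : ℕ) (t : Finset ι), t.card = k → ∃ l : List ι, l.Nodup ∧ l.toFinset = t ∧
      ∀ m : ℕ, ‖(∑ i ∈ t, a i) - ((l.take m).map a).sum‖ ^ 2
        ≤ ‖∑ i ∈ t, a i‖ ^ 2 + ∑ i ∈ t, ‖a i‖ ^ 2 := by
  intro k
  induction k with
  | zero =>
    intro t ht
    refine ⟨[], List.nodup_nil, ?_, ?_⟩
    · rw [Finset.card_eq_zero] at ht; simp [ht]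
    · intro m
      rw [Finset.card_eq_zero] at ht; simp [ht]
  | succ k ih =>
    intro t ht
    set R : 𝕜 := ∑ i ∈ t, a i with hR
    have hne : t.Nonempty := by
      rw [← Finset.card_pos]; omega
    obtain ⟨i, hi, hpos⟩ : ∃ i ∈ t, 0 ≤ RCLike.re (inner 𝕜 R (a i)) := by
      by_contra hcon
      push Not at hcon
      have h1 : ∑ i ∈ t, RCLike.re (inner 𝕜 R (a i)) < 0 := by
        have := Finset.sum_lt_sum_of_nonempty hne hcon
        simpa using this
      have h2 : ∑ i ∈ t, RCLike.re (inner 𝕜 R (a i)) = ‖R‖ ^ 2 := by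
        rw [← map_sum, ← inner_sum, ← hR]
        exact (norm_sq_eq_re_inner R).symm
      have : 0 ≤ ‖R‖ ^ 2 := by positivity
      linarith
    have hcard : (t.erase i).card = k := by
      rw [Finset.card_erase_of_mem hi, ht]; rfl
    obtain ⟨l, hl1, hl2, hl3⟩ := ih (t.erase i) hcard
    have hsum : ∑ j ∈ t.erase i, a j = R - a i := by
      rw [hR, ← Finset.add_sum_erase t a hi]; ring
    have hsq : ∑ j ∈ t, ‖a j‖ ^ 2 = ‖a i‖ ^ 2 + ∑ j ∈ t.erase i, ‖a j‖ ^ 2 :=
      (Finset.add_sum_erase t (fun j => ‖a j‖ ^ 2) hi).symm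
    have hnorm : ‖R - a i‖ ^ 2 ≤ ‖R‖ ^ 2 + ‖a i‖ ^ 2 := by
      rw [@norm_sub_sq 𝕜]
      linarith
    refine ⟨i :: l, ?_, ?_, ?_⟩
    · rw [List.nodup_cons]
      refine ⟨?_, hl1⟩
      intro hmem
      have : i ∈ l.toFinset := List.mem_toFinset.mpr hmem
      rw [hl2] at this
      simp at this
    · rw [List.toFinset_cons, hl2, Finset.insert_erase hi]
    · intro m
      cases m with
      | zero =>
        simp only [List.take_zero, List.map_nil, List.sum_nil, sub_zero]
        have : 0 ≤ ∑ i ∈ t, ‖a i‖ ^ 2 := Finset.sum_nonneg (fun i _ => by positivity)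
        linarith
      | succ m =>
        have h3 := hl3 m
        rw [hsum] at h3
        rw [List.take_succ_cons, List.map_cons, List.sum_cons, hsq, ← sub_sub]
        linarith

/-! ### The space -/

variable (𝕜 : Type) [RCLike 𝕜]

/-- The ambient Hilbert space. -/
abbrev H : Type := lp (fun _ : ℕ ⊕ ℕ => 𝕜) 2

/-- The `N`-th block of indices. -/
def block (N : ℕ) : Finset ℕ := Finset.Ico (N * N) ((N + 1) * (N + 1))

theorem mem_block {N n : ℕ} : n ∈ block N ↔ Nat.sqrt n = N := by
  unfold block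
  rw [Finset.mem_Ico, eq_comm, Nat.eq_sqrt]

theorem card_block (N : ℕ) : (block N).card = 2 * N + 1 := by
  unfold block
  rw [Nat.card_Ico]
  have : (N + 1) * (N + 1) = N * N + (2 * N + 1) := by ring
  omega

/-- Evaluation at a coordinate. -/
noncomputable def ev (i : ℕ ⊕ ℕ) : H 𝕜 →L[𝕜] 𝕜 := lp.evalCLM 𝕜 (fun _ : ℕ ⊕ ℕ => 𝕜) 2 i

@[simp] theorem ev_apply (i : ℕ ⊕ ℕ) (v : H 𝕜) : ev 𝕜 i v = v i := rfl

/-- The defining functionals of the subspace. -/
noncomputable def phi (N : ℕ) : H 𝕜 →L[𝕜] 𝕜 := ev 𝕜 (Sum.inr N) - ∑ n ∈ block N, ev 𝕜 (Sum.inl n)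

theorem phi_apply (N : ℕ) (v : H 𝕜) : phi 𝕜 N v = v (Sum.inr N) - ∑ n ∈ block N, v (Sum.inl n) := by
  simp [phi]

/-- The subspace. -/
noncomputable def E : Submodule 𝕜 (H 𝕜) := ⨅ N : ℕ, LinearMap.ker (phi 𝕜 N : H 𝕜 →ₗ[𝕜] 𝕜)

theorem mem_E {v : H 𝕜} : v ∈ E 𝕜 ↔ ∀ N : ℕ, v (Sum.inr N) = ∑ n ∈ block N, v (Sum.inl n) := by
  unfold E
  rw [Submodule.mem_iInf]
  refine forall_congr' (fun N => ?_)
  rw [LinearMap.mem_ker]
  show phi 𝕜 N v = 0 ↔ _
  rw [phi_apply, sub_eq_zero]

theorem isClosed_E : IsClosed (E 𝕜 : Set (H 𝕜)) := by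
  unfold E
  rw [Submodule.coe_iInf]
  exact isClosed_iInter (fun N => (phi 𝕜 N).isClosed_ker)

instance : CompleteSpace (E 𝕜) := (isClosed_E 𝕜).completeSpace_coe

/-- The sequence, in the ambient space. -/
noncomputable def xv (n : ℕ) : H 𝕜 :=
  lp.single 2 (Sum.inl n) (1 : 𝕜) + lp.single 2 (Sum.inr (Nat.sqrt n)) (1 : 𝕜)

theorem xv_inl (n k : ℕ) : xv 𝕜 n (Sum.inl k) = if k = n then 1 else 0 := by
  by_cases h : k = n
  · subst h
    simp [xv, lp.single_apply]
  · simp [xv, lp.single_apply, h]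

theorem xv_inr (n k : ℕ) : xv 𝕜 n (Sum.inr k) = if k = Nat.sqrt n then 1 else 0 := by
  simp [xv, lp.single_apply, Pi.single_apply]

theorem xv_mem (n : ℕ) : xv 𝕜 n ∈ E 𝕜 := by
  rw [mem_E]
  intro N
  rw [xv_inr]
  simp only [xv_inl]
  rw [Finset.sum_ite_eq']
  simp only [mem_block]
  by_cases h : N = Nat.sqrt n
  · simp [h]
  · rw [if_neg h, if_neg (fun h' => h h'.symm)]

/-- The sequence. -/
noncomputable def x (n : ℕ) : E 𝕜 := ⟨xv 𝕜 n, xv_mem 𝕜 n⟩

/-- Coordinate functionals of the subspace. -/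
noncomputable def co (i : ℕ ⊕ ℕ) : E 𝕜 →L[𝕜] 𝕜 := (ev 𝕜 i).comp (E 𝕜).subtypeL

@[simp] theorem co_apply (i : ℕ ⊕ ℕ) (v : E 𝕜) : co 𝕜 i v = (v : H 𝕜) i := rfl

theorem co_inl_x (n k : ℕ) : co 𝕜 (Sum.inl k) (x 𝕜 n) = if k = n then 1 else 0 := xv_inl 𝕜 n k

theorem co_inr_x (n k : ℕ) : co 𝕜 (Sum.inr k) (x 𝕜 n) = if k = Nat.sqrt n then 1 else 0 :=
  xv_inr 𝕜 n k

/-- In any permuted expansion the coefficients are the coordinates. -/
theorem coeff_eq {v : E 𝕜} {α : ℕ → 𝕜} {σ : Equiv.Perm ℕ} (h : PermExpansion 𝕜 (x 𝕜) v α σ) (n : ℕ) :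
    α n = (v : H 𝕜) (Sum.inl n) := by
  have h1 := ((co 𝕜 (Sum.inl n)).continuous.tendsto v).comp h
  have h2 : Tendsto ((co 𝕜 (Sum.inl n)) ∘ fun m => ∑ i ∈ Finset.range m, α (σ i) • x 𝕜 (σ i))
      atTop (𝓝 (α n)) := by
    apply tendsto_const_nhds.congr'
    filter_upwards [eventually_gt_atTop (σ.symm n)] with m hm
    simp only [Function.comp, map_sum, map_smul, co_inl_x, smul_eq_mul, mul_ite, mul_one, mul_zero]
    rw [Finset.sum_eq_single (σ.symm n)]
    · simp
    · intro b _ hb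
      rw [if_neg]
      intro h'
      apply hb
      rw [h']; simp
    · intro h'
      exact absurd (Finset.mem_range.mpr hm) h'
  exact (tendsto_nhds_unique h2 h1)

theorem minimal : IsMinimalSeq 𝕜 (x 𝕜) := by
  intro m hm
  have h1 : (Submodule.span 𝕜 {y | ∃ n, n ≠ m ∧ x 𝕜 n = y}).topologicalClosure
      ≤ LinearMap.ker (co 𝕜 (Sum.inl m) : E 𝕜 →ₗ[𝕜] 𝕜) := by
    apply Submodule.topologicalClosure_minimal
    · rw [Submodule.span_le]
      rintro y ⟨n, hn, rfl⟩
      show co 𝕜 (Sum.inl m) (x 𝕜 n) = 0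
      rw [co_inl_x, if_neg (fun h => hn h.symm)]
    · exact (co 𝕜 (Sum.inl m)).isClosed_ker
  have h2 : co 𝕜 (Sum.inl m) (x 𝕜 m) = 0 := h1 hm
  rw [co_inl_x, if_pos rfl] at h2
  exact one_ne_zero h2

/-! ### Existence of a permuted expansion -/

/-- Norm convergence in `ℓ²` from coordinatewise convergence and domination. -/
theorem tendsto_zero_of_dom (D : ℕ → H 𝕜) (g : ℕ ⊕ ℕ → ℝ) (hg : Summable g)
    (hD : ∀ m i, ‖D m i‖ ^ 2 ≤ g i) (h0 : ∀ i, Tendsto (fun m => D m i) atTop (𝓝 0)) :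
    Tendsto D atTop (𝓝 0) := by
  rw [tendsto_zero_iff_norm_tendsto_zero]
  have h2 : Tendsto (fun m => ‖D m‖ ^ 2) atTop (𝓝 0) := by
    have h3 : ∀ m, ‖D m‖ ^ 2 = ∑' i, ‖D m i‖ ^ 2 := by
      intro m
      have := lp.norm_rpow_eq_tsum (p := 2) (by norm_num) (D m)
      simpa using this
    simp only [h3]
    have h4 : (0 : ℝ) = ∑' i : ℕ ⊕ ℕ, (0 : ℝ) := by simp
    rw [h4]
    apply tendsto_tsum_of_dominated_convergence hg
    · intro i
      have := ((h0 i).norm).pow 2
      simpa using this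
    · apply Eventually.of_forall
      intro m i
      rw [Real.norm_of_nonneg (by positivity)]
      exact hD m i
  have h5 := h2.sqrt
  simpa [Real.sqrt_sq (norm_nonneg _)] using h5

theorem block_disj {M N : ℕ} (h : M ≠ N) : Disjoint (block M) (block N) := by
  rw [Finset.disjoint_left]
  intro n h1 h2
  rw [mem_block] at h1 h2
  exact h (h1.symm.trans h2)

theorem sum_blocks (f : ℕ → ℝ) (K : ℕ) :
    ∑ N ∈ Finset.range K, ∑ n ∈ block N, f n = ∑ n ∈ Finset.range (K * K), f n := by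
  induction K with
  | zero => simp
  | succ K ih =>
    rw [Finset.sum_range_succ, ih]
    unfold block
    rw [Finset.range_eq_Ico, Finset.range_eq_Ico]
    apply Finset.sum_Ico_consecutive
    · exact Nat.zero_le _
    · nlinarith

theorem exists_expansion (v : E 𝕜) :
    ∃ σ : Equiv.Perm ℕ, PermExpansion 𝕜 (x 𝕜) v (fun n => (v : H 𝕜) (Sum.inl n)) σ := by
  set a : ℕ → 𝕜 := fun n => (v : H 𝕜) (Sum.inl n) with ha
  -- the lists
  have hl : ∀ N : ℕ, ∃ l : List ℕ, l.Nodup ∧ l.toFinset = block N ∧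
      ∀ m : ℕ, ‖(∑ i ∈ block N, a i) - ((l.take m).map a).sum‖ ^ 2
        ≤ ‖∑ i ∈ block N, a i‖ ^ 2 + ∑ i ∈ block N, ‖a i‖ ^ 2 :=
    fun N => greedy a _ (block N) rfl
  choose L hL1 hL2 hL3 using hl
  have hlen : ∀ N, (L N).length = 2 * N + 1 := by
    intro N
    rw [← card_block N, ← hL2 N, List.toFinset_card_of_nodup (hL1 N)]
  have hmem : ∀ N n, n ∈ L N ↔ Nat.sqrt n = N := by
    intro N n
    rw [← List.mem_toFinset, hL2, mem_block]
  have hidx : ∀ n : ℕ, n - Nat.sqrt n * Nat.sqrt n < (L (Nat.sqrt n)).length := by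
    intro n
    rw [hlen]
    have h1 := Nat.sqrt_le n
    have h3 : n < (Nat.sqrt n + 1) * (Nat.sqrt n + 1) := Nat.lt_succ_sqrt n
    have h4 : (Nat.sqrt n + 1) * (Nat.sqrt n + 1) = Nat.sqrt n * Nat.sqrt n + (2 * Nat.sqrt n + 1) := by ring
    omega
  let s : ℕ → ℕ := fun n => (L (Nat.sqrt n))[n - Nat.sqrt n * Nat.sqrt n]'(hidx n)
  have hs_sqrt : ∀ n, Nat.sqrt (s n) = Nat.sqrt n := by
    intro n
    rw [← hmem]
    exact List.getElem_mem _
  have hsqrt_add : ∀ N j : ℕ, j < 2 * N + 1 → Nat.sqrt (N * N + j) = N := by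
    intro N j hj
    symm
    rw [Nat.eq_sqrt]
    constructor
    · omega
    · have : (N + 1) * (N + 1) = N * N + (2 * N + 1) := by ring
      omega
  have hs_at : ∀ N j : ℕ, (hj : j < (L N).length) → s (N * N + j) = (L N)[j] := by
    intro N j hj
    have h1 : Nat.sqrt (N * N + j) = N := hsqrt_add N j (by rw [← hlen]; exact hj)
    have h2 : ∀ (M : ℕ) (hM : M = N) (h : (N * N + j) - M * M < (L M).length),
        (L M)[(N * N + j) - M * M]'h = (L N)[j] := by
      intro M hM h
      subst hM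
      congr 1
      omega
    exact h2 _ h1 _
  have hinj : Function.Injective s := by
    intro n m hnm
    have h1 : Nat.sqrt n = Nat.sqrt m := by
      rw [← hs_sqrt n, ← hs_sqrt m, hnm]
    have hn := hidx n
    have hm := hidx m
    have en : s n = (L (Nat.sqrt n))[n - Nat.sqrt n * Nat.sqrt n]'(hidx n) := rfl
    have em : s m = (L (Nat.sqrt n))[m - Nat.sqrt n * Nat.sqrt n]'(by rw [h1]; exact hm) := by
      have h2 : ∀ (M : ℕ) (_ : Nat.sqrt m = M) (h : m - M * M < (L M).length),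
          s m = (L M)[m - M * M]'h := by
        intro M hM h
        subst hM
        rfl
      exact h2 _ h1.symm _
    rw [en, em] at hnm
    have h3 := (List.Nodup.getElem_inj_iff (hL1 (Nat.sqrt n))).mp hnm
    have h4 := Nat.sqrt_le n
    have h5 := Nat.sqrt_le m
    rw [← h1] at h5
    omega
  have hsurj : Function.Surjective s := by
    intro n
    have h1 : n ∈ L (Nat.sqrt n) := (hmem _ _).mpr rfl
    obtain ⟨j, hj, hjn⟩ := List.getElem_of_mem h1
    exact ⟨Nat.sqrt n * Nat.sqrt n + j, by rw [hs_at _ _ hj, hjn]⟩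
  let σ : Equiv.Perm ℕ := Equiv.ofBijective s ⟨hinj, hsurj⟩
  have hσ : ∀ n, σ n = s n := fun n => rfl
  -- block sums of the partial expansions
  have hpart : ∀ N m : ℕ, ∑ i ∈ Finset.range m, (if N = Nat.sqrt (s i) then a (s i) else 0)
      = (((L N).take (m - N * N)).map a).sum := by
    intro N m
    induction m with
    | zero => simp
    | succ m ih =>
      rw [Finset.sum_range_succ, ih, hs_sqrt]
      by_cases h1 : m < N * N
      · rw [if_neg]
        · have h2 : m - N * N = 0 := by omega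
          have h3 : m + 1 - N * N = 0 := by omega
          rw [h2, h3, add_zero]
        · intro h
          have h4 := Nat.sqrt_le m
          rw [← h] at h4
          omega
      · push Not at h1
        obtain ⟨j, rfl⟩ : ∃ j, m = N * N + j := ⟨m - N * N, by omega⟩
        have e1 : N * N + j - N * N = j := by omega
        have e2 : N * N + j + 1 - N * N = j + 1 := by omega
        rw [e1, e2]
        by_cases h2 : j < (L N).length
        · rw [hlen] at h2
          rw [hsqrt_add N j h2, if_pos rfl]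
          rw [← hlen] at h2
          rw [hs_at N j h2, List.take_add_one, List.getElem?_eq_getElem h2, List.map_append,
            List.sum_append]
          simp only [Option.toList_some, List.map_cons, List.map_nil, List.sum_cons, List.sum_nil,
            add_zero]
        · rw [if_neg]
          · push Not at h2
            rw [List.take_of_length_le h2, List.take_of_length_le (by omega), add_zero]
          · intro h
            have h4 : N * N + j < (Nat.sqrt (N * N + j) + 1) * (Nat.sqrt (N * N + j) + 1) :=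
              Nat.lt_succ_sqrt _
            rw [← h] at h4
            rw [hlen] at h2
            have h5 : (N + 1) * (N + 1) = N * N + (2 * N + 1) := by ring
            omega
  refine ⟨σ, ?_⟩
  -- the differences
  let D : ℕ → H 𝕜 := fun m => (v : H 𝕜) - ∑ i ∈ Finset.range m, a (s i) • xv 𝕜 (s i)
  have hv := (mem_E 𝕜).mp v.2
  have hev : ∀ (i : ℕ ⊕ ℕ) (m : ℕ), D m i = (v : H 𝕜) i - ∑ j ∈ Finset.range m, a (s j) * xv 𝕜 (s j) i := by
    intro i m
    have : ev 𝕜 i (D m) = ev 𝕜 i (v : H 𝕜) - ∑ j ∈ Finset.range m, a (s j) • ev 𝕜 i (xv 𝕜 (s j)) := by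
      simp only [D, map_sub, map_sum, map_smul]
    simpa using this
  have hinl : ∀ n m, D m (Sum.inl n) = if n ∈ (Finset.range m).image s then 0 else a n := by
    intro n m
    rw [hev]
    simp only [xv_inl, mul_ite, mul_one, mul_zero]
    by_cases h : n ∈ (Finset.range m).image s
    · rw [if_pos h]
      obtain ⟨j, hj, rfl⟩ := Finset.mem_image.mp h
      rw [Finset.sum_eq_single j]
      · simp [ha]
      · intro b _ hb
        rw [if_neg]
        intro h'
        exact hb (hinj h'.symm)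
      · intro h'; exact absurd hj h'
    · rw [if_neg h, Finset.sum_eq_zero]
      · simp [ha]
      · intro j hj
        rw [if_neg]
        rintro rfl
        exact h (Finset.mem_image_of_mem s hj)
  have hinr : ∀ N m, D m (Sum.inr N) = (∑ i ∈ block N, a i) - (((L N).take (m - N * N)).map a).sum := by
    intro N m
    rw [hev, ← hpart N m, hv N]
    simp only [xv_inr, mul_ite, mul_one, mul_zero]
    rfl
  have hsum_sq : Summable (fun i => ‖(v : H 𝕜) i‖ ^ 2) := by
    have := (lp.hasSum_norm (p := 2) (by norm_num) (v : H 𝕜)).summable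
    simpa using this
  have hsum_l : Summable (fun n : ℕ => ‖a n‖ ^ 2) := hsum_sq.comp_injective Sum.inl_injective
  have hsum_r : Summable (fun n : ℕ => ‖(v : H 𝕜) (Sum.inr n)‖ ^ 2) :=
    hsum_sq.comp_injective Sum.inr_injective
  have hsum_b : Summable (fun N : ℕ => ∑ n ∈ block N, ‖a n‖ ^ 2) := by
    apply summable_of_sum_range_le (c := ∑' n, ‖a n‖ ^ 2)
    · intro N
      exact Finset.sum_nonneg (fun _ _ => by positivity)
    · intro K
      rw [sum_blocks]
      exact hsum_l.sum_le_tsum _ (fun _ _ => by positivity)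
  have hD0 : Tendsto D atTop (𝓝 0) := by
    apply tendsto_zero_of_dom 𝕜 D (Sum.elim (fun n => ‖a n‖ ^ 2)
      (fun N => ‖(v : H 𝕜) (Sum.inr N)‖ ^ 2 + ∑ n ∈ block N, ‖a n‖ ^ 2))
    · exact Summable.sum _ hsum_l (hsum_r.add hsum_b)
    · rintro m (n | N)
      · rw [hinl]
        show _ ≤ ‖a n‖ ^ 2
        split_ifs
        · simp
        · exact le_refl _
      · rw [hinr]
        show _ ≤ ‖(v : H 𝕜) (Sum.inr N)‖ ^ 2 + ∑ n ∈ block N, ‖a n‖ ^ 2
        rw [hv N]
        exact hL3 N _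
    · rintro (n | N)
      · apply tendsto_const_nhds.congr'
        obtain ⟨k, hk⟩ := hsurj n
        filter_upwards [eventually_gt_atTop k] with m hm
        rw [hinl, if_pos]
        rw [Finset.mem_image]
        exact ⟨k, Finset.mem_range.mpr hm, hk⟩
      · apply tendsto_const_nhds.congr'
        filter_upwards [eventually_ge_atTop (N * N + (2 * N + 1))] with m hm
        rw [hinr, List.take_of_length_le (by rw [hlen]; omega)]
        rw [← List.sum_toFinset _ (hL1 N), hL2 N, sub_self]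
  have hfin : Tendsto (fun m => (v : H 𝕜) - D m) atTop (𝓝 ((v : H 𝕜) - 0)) :=
    tendsto_const_nhds.sub hD0
  rw [sub_zero] at hfin
  unfold PermExpansion
  rw [tendsto_subtype_rng]
  refine hfin.congr (fun m => ?_)
  simp only [D, sub_sub_cancel]
  simp [x, hσ]

theorem propertyU : PropertyU 𝕜 (x 𝕜) := by
  intro v
  obtain ⟨σ, hσ⟩ := exists_expansion 𝕜 v
  refine ⟨⟨_, σ, hσ⟩, ?_⟩
  intro α β σ π h1 h2
  funext n
  rw [coeff_eq 𝕜 h1, coeff_eq 𝕜 h2]

/-! ### No permutation is a basis -/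

theorem not_basis (τ : Equiv.Perm ℕ) : ¬ IsSchauderBasis 𝕜 (fun n => x 𝕜 (τ n)) := by
  intro hb
  -- partial sum operators
  let P : ℕ → (E 𝕜 →L[𝕜] E 𝕜) := fun m =>
    ∑ i ∈ Finset.range m, (co 𝕜 (Sum.inl (τ i))).smulRight (x 𝕜 (τ i))
  have hP : ∀ m v, P m v = ∑ i ∈ Finset.range m, (v : H 𝕜) (Sum.inl (τ i)) • x 𝕜 (τ i) := by
    intro m v
    simp [P]
  have hconv : ∀ v, Tendsto (fun m => P m v) atTop (𝓝 v) := by
    intro v
    obtain ⟨α, hα, _⟩ := hb v
    have h1 : PermExpansion 𝕜 (x 𝕜) v (fun n => α (τ.symm n)) τ := by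
      unfold PermExpansion
      simpa using hα
    refine h1.congr (fun m => ?_)
    rw [hP]
    refine Finset.sum_congr rfl (fun i _ => ?_)
    exact congrArg (fun c : 𝕜 => c • x 𝕜 (τ i)) (coeff_eq 𝕜 h1 (τ i))
  obtain ⟨C, hC⟩ : ∃ C, ∀ m, ‖P m‖ ≤ C := by
    apply banach_steinhaus
    intro v
    obtain ⟨M, hM⟩ := isBounded_iff_forall_norm_le.mp
      (Metric.isBounded_range_of_tendsto (fun n ↦ P n v) (hconv v))
    exact ⟨M, Set.forall_mem_range.mp hM⟩
  have hkey : ∀ N : ℕ, (N : ℝ) ≤ 2 * C ^ 2 := by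
    intro N
    -- counting
    let c : ℕ → ℕ := fun m => ((Finset.range m).filter (fun i => τ i ∈ block N)).card
    have hc0 : c 0 = 0 := by simp [c]
    have hcs : ∀ m, c (m + 1) ≤ c m + 1 := by
      intro m
      simp only [c]
      rw [Finset.range_add_one, Finset.filter_insert]
      split_ifs
      · exact Finset.card_insert_le _ _
      · omega
    obtain ⟨m0, hm0⟩ : ∃ m0, N ≤ c m0 := by
      let S := (block N).image τ.symm
      refine ⟨S.sup id + 1, ?_⟩
      have h1 : S ⊆ (Finset.range (S.sup id + 1)).filter (fun i => τ i ∈ block N) := by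
        intro i hi
        rw [Finset.mem_filter, Finset.mem_range]
        refine ⟨Nat.lt_succ_of_le (Finset.le_sup (f := id) hi), ?_⟩
        obtain ⟨n, hn, rfl⟩ := Finset.mem_image.mp hi
        simpa using hn
      have h2 := Finset.card_le_card h1
      have h3 : S.card = 2 * N + 1 := by
        rw [Finset.card_image_of_injective _ τ.symm.injective, card_block]
      simp only [c]
      omega
    obtain ⟨m, hm⟩ : ∃ m, c m = N := by
      classical
      let m1 := Nat.find (p := fun m => N ≤ c m) ⟨m0, hm0⟩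
      have h1 : N ≤ c m1 := Nat.find_spec (p := fun m => N ≤ c m) ⟨m0, hm0⟩
      refine ⟨m1, le_antisymm ?_ h1⟩
      rcases Nat.eq_zero_or_pos m1 with h0 | h0
      · rw [h0, hc0]; omega
      · have h2 : ¬ N ≤ c (m1 - 1) := Nat.find_min (p := fun m => N ≤ c m) ⟨m0, hm0⟩ (by omega)
        have h3 := hcs (m1 - 1)
        have h4 : m1 - 1 + 1 = m1 := by omega
        rw [h4] at h3
        omega
    let A : Finset ℕ := ((Finset.range m).filter (fun i => τ i ∈ block N)).image τ
    have hA : A.card = N := by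
      rw [Finset.card_image_of_injective _ τ.injective]; exact hm
    have hAb : A ⊆ block N := by
      intro n hn
      obtain ⟨i, hi, rfl⟩ := Finset.mem_image.mp hn
      exact (Finset.mem_filter.mp hi).2
    obtain ⟨B, hB1, hB2⟩ : ∃ B ⊆ block N \ A, B.card = N := by
      apply Finset.exists_subset_card_eq
      rw [Finset.card_sdiff_of_subset hAb, card_block, hA]
      omega
    have hAB : Disjoint A B := by
      rw [Finset.disjoint_left]
      intro n hn hn'
      exact (Finset.mem_sdiff.mp (hB1 hn')).2 hn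
    let f : ℕ → 𝕜 := fun n => if n ∈ A then 1 else if n ∈ B then -1 else 0
    let v : E 𝕜 := ∑ n ∈ A ∪ B, f n • x 𝕜 n
    have hvl : ∀ n, (v : H 𝕜) (Sum.inl n) = f n := by
      intro n
      have h1 : co 𝕜 (Sum.inl n) v = ∑ k ∈ A ∪ B, f k * (if n = k then 1 else 0) := by
        simp only [v, map_sum, map_smul, co_inl_x, smul_eq_mul]
      have h2 : (v : H 𝕜) (Sum.inl n) = co 𝕜 (Sum.inl n) v := rfl
      rw [h2, h1]
      simp only [mul_ite, mul_one, mul_zero]
      rw [Finset.sum_ite_eq]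
      split_ifs with h
      · rfl
      · simp only [Finset.mem_union, not_or] at h
        simp [f, h.1, h.2]
    have hfB : ∀ n ∈ B, f n = -1 := by
      intro n hn
      have : n ∉ A := fun h => (Finset.disjoint_left.mp hAB) h hn
      simp [f, this, hn]
    have hfA : ∀ n ∈ A, f n = 1 := by
      intro n hn
      simp [f, hn]
    have hvr : ∀ M, (v : H 𝕜) (Sum.inr M) = 0 := by
      intro M
      rw [(mem_E 𝕜).mp v.2 M]
      by_cases hM : M = N
      · subst hM
        simp only [hvl]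
        have h1 : A ∪ B ⊆ block M := Finset.union_subset hAb (hB1.trans Finset.sdiff_subset)
        rw [← Finset.sum_subset h1, Finset.sum_union hAB, Finset.sum_congr rfl hfA,
          Finset.sum_congr rfl hfB]
        · simp [hA, hB2]
        · intro n _ hn
          simp only [Finset.mem_union, not_or] at hn
          simp [f, hn.1, hn.2]
      · apply Finset.sum_eq_zero
        intro n hn
        rw [hvl]
        have h1 : n ∉ block N := fun h => (Finset.disjoint_left.mp (block_disj hM)) hn h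
        have h2 : n ∉ A := fun h => h1 (hAb h)
        have h3 : n ∉ B := fun h => h1 ((Finset.mem_sdiff.mp (hB1 h)).1)
        simp [f, h2, h3]
    have hnorm : ‖v‖ ^ 2 = 2 * N := by
      have h1 : ‖(v : H 𝕜)‖ ^ 2 = ∑' i, ‖(v : H 𝕜) i‖ ^ 2 := by
        have := lp.norm_rpow_eq_tsum (p := 2) (by norm_num) (v : H 𝕜)
        simpa using this
      have h2 : ‖v‖ = ‖(v : H 𝕜)‖ := rfl
      rw [h2, h1, tsum_eq_sum (s := (A ∪ B).map ⟨Sum.inl, Sum.inl_injective⟩)]
      · rw [Finset.sum_map]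
        simp only [Function.Embedding.coeFn_mk, hvl]
        have e1 : ∑ n ∈ A, ‖f n‖ ^ 2 = N := by
          rw [Finset.sum_congr rfl (g := fun _ => (1 : ℝ)) (fun n hn => by rw [hfA n hn]; simp)]
          simp [hA]
        have e2 : ∑ n ∈ B, ‖f n‖ ^ 2 = N := by
          rw [Finset.sum_congr rfl (g := fun _ => (1 : ℝ)) (fun n hn => by rw [hfB n hn]; simp)]
          simp [hB2]
        rw [Finset.sum_union hAB, e1, e2]
        ring
      · rintro (n | M) hi
        · rw [hvl]
          simp only [Finset.mem_map, Function.Embedding.coeFn_mk, Sum.inl.injEq, exists_eq_right,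
            Finset.mem_union, not_or] at hi
          simp [f, hi.1, hi.2]
        · rw [hvr]; simp
    have hPv : co 𝕜 (Sum.inr N) (P m v) = (N : 𝕜) := by
      rw [hP, map_sum]
      have h1 : ∀ i ∈ Finset.range m, co 𝕜 (Sum.inr N) ((v : H 𝕜) (Sum.inl (τ i)) • x 𝕜 (τ i))
          = if τ i ∈ block N then (1 : 𝕜) else 0 := by
        intro i hi
        rw [map_smul, co_inr_x, hvl, smul_eq_mul]
        by_cases h : τ i ∈ block N
        · have h2 : τ i ∈ A := by
            apply Finset.mem_image_of_mem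
            rw [Finset.mem_filter]
            exact ⟨hi, h⟩
          rw [hfA _ h2, if_pos h, if_pos (mem_block.mp h).symm, one_mul]
        · rw [if_neg h, if_neg, mul_zero]
          intro h'
          exact h (mem_block.mpr h'.symm)
      rw [Finset.sum_congr rfl h1, ← Finset.sum_filter, Finset.sum_const]
      have h3 : ((Finset.range m).filter (fun i => τ i ∈ block N)).card = N := hm
      rw [h3]
      simp
    have hle : (N : ℝ) ≤ C * ‖v‖ := by
      have h1 : ‖co 𝕜 (Sum.inr N) (P m v)‖ ≤ ‖P m v‖ :=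
        lp.norm_apply_le_norm (by norm_num) _ _
      rw [hPv, RCLike.norm_natCast] at h1
      exact h1.trans ((P m).le_of_opNorm_le (hC m) v)
    rcases Nat.eq_zero_or_pos N with hN | hN
    · rw [hN, Nat.cast_zero]; positivity
    · have hNr : (0 : ℝ) < N := by exact_mod_cast hN
      have h1 : (N : ℝ) ^ 2 ≤ C ^ 2 * (2 * N) := by
        rw [← hnorm, ← mul_pow]
        exact pow_le_pow_left₀ (by positivity) hle 2
      nlinarith
  obtain ⟨N, hN⟩ := exists_nat_gt (2 * C ^ 2)
  exact absurd (hkey N) (not_le.mpr hN)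

theorem dense_span : (Submodule.span 𝕜 (Set.range (x 𝕜))).topologicalClosure = ⊤ := by
  rw [eq_top_iff]
  rintro v -
  obtain ⟨σ, hσ⟩ := exists_expansion 𝕜 v
  refine mem_closure_of_tendsto hσ (Eventually.of_forall (fun m => ?_))
  exact Submodule.sum_mem _ (fun i _ => Submodule.smul_mem _ _ (Submodule.subset_span ⟨_, rfl⟩))

theorem separable : TopologicalSpace.SeparableSpace (E 𝕜) := by
  rw [← TopologicalSpace.isSeparable_univ_iff]
  have h1 : TopologicalSpace.IsSeparable (Submodule.span 𝕜 (Set.range (x 𝕜)) : Set (E 𝕜)) :=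
    (Set.countable_range (x 𝕜)).isSeparable.span
  have h2 := h1.closure
  have h3 : closure (Submodule.span 𝕜 (Set.range (x 𝕜)) : Set (E 𝕜)) = Set.univ := by
    have := congrArg (fun S : Submodule 𝕜 (E 𝕜) => (S : Set (E 𝕜))) (dense_span 𝕜)
    simpa [Submodule.topologicalClosure_coe] using this
  rwa [h3] at h2

end Pool.Agent.Results.MP_514f39_an.NoPermutationBasis

/-- For `𝕜 = ℝ` and `𝕜 = ℂ` there is a separable Hilbert space with a minimal sequence that has
property (U) and none of whose permutations is a basis. -/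
theorem Pool.Agent.Results.MP_514f39_an.NoPermutationBasis.result (𝕜 : Type) [RCLike 𝕜] :
    ∃ (E : Type) (_ : NormedAddCommGroup E) (_ : InnerProductSpace 𝕜 E) (_ : CompleteSpace E)
      (_ : TopologicalSpace.SeparableSpace E) (x : ℕ → E),
      IsMinimalSeq 𝕜 x ∧ PropertyU 𝕜 x ∧
        ∀ τ : Equiv.Perm ℕ, ¬ IsSchauderBasis 𝕜 (fun n => x (τ n)) :=
  ⟨E 𝕜, inferInstance, inferInstance, inferInstance, separable 𝕜, x 𝕜, minimal 𝕜, propertyU 𝕜,
    not_basis 𝕜⟩
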